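import Mathlib

/-!
# Few orientations are acyclic on a set of large minimum degree
-/

namespace Pool.Agent.H45.EN

open Finset

/-- the arcs of the orientation coded by the bits `ω` -/
def dir {V : Type*} [LinearOrder V] (G : SimpleGraph V) (ω : V × V → Bool) (u v : V) : Prop :=
  G.Adj u v ∧ ((u < v ∧ ω (u, v) = true) ∨ (v < u ∧ ω (v, u) = false))

/-- the orientation is acyclic on `S` -/
def Acy {V : Type*} [LinearOrder V] (G : SimpleGraph V) (ω : V × V → Bool) (S : Finset V) : Prop :=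
  ∀ x, ¬ Relation.TransGen (fun u v => dir G ω u v ∧ u ∈ S ∧ v ∈ S) x x

/-- coordinates of the edges inside `S` -/
def eS {V : Type*} [LinearOrder V] (G : SimpleGraph V) [DecidableRel G.Adj] (S : Finset V) :
    Finset (V × V) := (S ×ˢ S).filter (fun p => p.1 < p.2 ∧ G.Adj p.1 p.2)

theorem dir_or {V : Type*} [LinearOrder V] {G : SimpleGraph V} (ω : V × V → Bool) {u v : V}
    (h : G.Adj u v) : (dir G ω u v ∧ ¬ dir G ω v u) ∨ (dir G ω v u ∧ ¬ dir G ω u v) := by
  rcases lt_or_gt_of_ne h.ne with hlt | hlt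
  · rcases hω : ω (u, v) with _ | _
    · right
      refine ⟨⟨h.symm, Or.inr ⟨hlt, hω⟩⟩, ?_⟩
      rintro ⟨-, ⟨h1, h2⟩ | ⟨h1, h2⟩⟩
      · rw [hω] at h2
        exact absurd h2 (by decide)
      · exact hlt.asymm h1
    · left
      refine ⟨⟨h, Or.inl ⟨hlt, hω⟩⟩, ?_⟩
      rintro ⟨-, ⟨h1, h2⟩ | ⟨h1, h2⟩⟩
      · exact hlt.asymm h1
      · rw [hω] at h2
        exact absurd h2 (by decide)
  · rcases hω : ω (v, u) with _ | _
    · left
      refine ⟨⟨h, Or.inr ⟨hlt, hω⟩⟩, ?_⟩
      rintro ⟨-, ⟨h1, h2⟩ | ⟨h1, h2⟩⟩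
      · rw [hω] at h2
        exact absurd h2 (by decide)
      · exact hlt.asymm h1
    · right
      refine ⟨⟨h.symm, Or.inl ⟨hlt, hω⟩⟩, ?_⟩
      rintro ⟨-, ⟨h1, h2⟩ | ⟨h1, h2⟩⟩
      · exact hlt.asymm h1
      · rw [hω] at h2
        exact absurd h2 (by decide)

theorem dir_asymm {V : Type*} [LinearOrder V] {G : SimpleGraph V} {ω : V × V → Bool} {u v : V}
    (h : dir G ω u v) : ¬ dir G ω v u := by
  rcases dir_or ω h.1 with h1 | h1
  · exact h1.2
  · exact absurd h h1.2

theorem dir_of_not {V : Type*} [LinearOrder V] {G : SimpleGraph V} {ω : V × V → Bool} {u v : V}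
    (h : G.Adj u v) (h' : ¬ dir G ω u v) : dir G ω v u := by
  rcases dir_or ω h with h1 | h1
  · exact absurd h1.1 h'
  · exact h1.1

open Classical in
/-- an acyclic orientation is determined by its out-degrees -/
theorem outdeg_inj {V : Type*} [Fintype V] [LinearOrder V] {G : SimpleGraph V}
    {ω ω' : V × V → Bool} {S : Finset V} (h : Acy G ω S)
    (hd : ∀ v ∈ S, (S.filter (dir G ω v)).card = (S.filter (dir G ω' v)).card) :
    ∀ u ∈ S, ∀ v ∈ S, dir G ω u v → dir G ω' u v := by
  intro u0 hu0 v0 hv0 hdir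
  by_contra hcon
  set R : V → V → Prop := fun u v => dir G ω u v ∧ u ∈ S ∧ v ∈ S with hR
  have hwf : WellFounded (fun a b => Relation.TransGen R b a) := by
    have : IsTrans V (fun a b => Relation.TransGen R b a) := ⟨fun a b c h1 h2 => h2.trans h1⟩
    have : Std.Irrefl (fun a b => Relation.TransGen R b a) := ⟨h⟩
    exact Finite.wellFounded_of_trans_of_irrefl _
  let P : Set V := {v | v ∈ S ∧ ∃ u ∈ S, dir G ω u v ∧ ¬ dir G ω' u v}
  obtain ⟨v, ⟨hvS, u, huS, huv, huv'⟩, hmin⟩ := hwf.has_min P ⟨v0, hv0, u0, hu0, hdir, hcon⟩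
  have h1 : (S.filter (fun w => dir G ω v w ∧ dir G ω' v w)).card
      + (S.filter (fun w => dir G ω v w ∧ ¬ dir G ω' v w)).card = (S.filter (dir G ω v)).card := by
    rw [← Finset.card_filter_add_card_filter_not (s := S.filter (dir G ω v)) (dir G ω' v),
      Finset.filter_filter, Finset.filter_filter]
  have h2 : (S.filter (fun w => dir G ω' v w ∧ dir G ω v w)).card
      + (S.filter (fun w => dir G ω' v w ∧ ¬ dir G ω v w)).card
        = (S.filter (dir G ω' v)).card := by
    rw [← Finset.card_filter_add_card_filter_not (s := S.filter (dir G ω' v)) (dir G ω v),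
      Finset.filter_filter, Finset.filter_filter]
  have h3 : (S.filter (fun w => dir G ω v w ∧ dir G ω' v w))
      = (S.filter (fun w => dir G ω' v w ∧ dir G ω v w)) :=
    Finset.filter_congr fun w _ => and_comm
  have h4 : 0 < (S.filter (fun w => dir G ω' v w ∧ ¬ dir G ω v w)).card := by
    rw [Finset.card_pos]
    refine ⟨u, Finset.mem_filter.2 ⟨huS, ?_, dir_asymm huv⟩⟩
    exact dir_of_not huv.1 huv'
  have h5 := hd v hvS
  have h6 : 0 < (S.filter (fun w => dir G ω v w ∧ ¬ dir G ω' v w)).card := by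
    rw [h3] at h1
    omega
  obtain ⟨w, hw⟩ := Finset.card_pos.1 h6
  rw [Finset.mem_filter] at hw
  exact hmin w ⟨hw.1, v, hvS, hw.2.1, hw.2.2⟩
    (Relation.TransGen.single ⟨hw.2.1, hvS, hw.1⟩)

theorem two_mul_eS {V : Type*} [LinearOrder V] (G : SimpleGraph V)
    [DecidableRel G.Adj] (S : Finset V) :
    2 * (eS G S).card = ∑ v ∈ S, (S.filter (G.Adj v)).card := by
  have h1 : ∑ v ∈ S, (S.filter (G.Adj v)).card =
      ((S ×ˢ S).filter (fun p => G.Adj p.1 p.2)).card := by
    rw [Finset.card_filter, Finset.sum_product]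
    refine Finset.sum_congr rfl fun v _ => ?_
    rw [Finset.card_filter]
  have h2 : ((S ×ˢ S).filter (fun p => G.Adj p.1 p.2)).card =
      (((S ×ˢ S).filter (fun p => G.Adj p.1 p.2)).filter (fun p => p.1 < p.2)).card +
      (((S ×ˢ S).filter (fun p => G.Adj p.1 p.2)).filter (fun p => ¬ p.1 < p.2)).card :=
    (Finset.card_filter_add_card_filter_not _).symm
  have h3 : (((S ×ˢ S).filter (fun p => G.Adj p.1 p.2)).filter (fun p => p.1 < p.2)) = eS G S := by
    rw [Finset.filter_filter, eS]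
    exact Finset.filter_congr fun p _ => and_comm
  have h4 : (((S ×ˢ S).filter (fun p => G.Adj p.1 p.2)).filter (fun p => ¬ p.1 < p.2)).card
      = (eS G S).card := by
    refine Finset.card_bij (fun p _ => (p.2, p.1)) ?_ ?_ ?_
    · rintro ⟨a, b⟩ h
      simp only [Finset.mem_filter, Finset.mem_product, not_lt] at h
      simp only [eS, Finset.mem_filter, Finset.mem_product]
      exact ⟨⟨h.1.1.2, h.1.1.1⟩, lt_of_le_of_ne h.2 h.1.2.ne', h.1.2.symm⟩
    · rintro ⟨a, b⟩ _ ⟨a', b'⟩ _ h
      simp only [Prod.mk.injEq] at h ⊢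
      exact ⟨h.2, h.1⟩
    · rintro ⟨a, b⟩ h
      simp only [eS, Finset.mem_filter, Finset.mem_product] at h
      refine ⟨(b, a), ?_, rfl⟩
      simp only [Finset.mem_filter, Finset.mem_product, not_lt]
      exact ⟨⟨⟨h.1.2, h.1.1⟩, h.2.2.symm⟩, h.2.1.le⟩
  rw [h1, h2, h3, h4]
  ring

open Classical in
/-- number of bit vectors whose orientation is acyclic on `S` -/
theorem card_acy {V : Type*} [Fintype V] [LinearOrder V] (G : SimpleGraph V)
    [DecidableRel G.Adj] (S : Finset V) :
    (univ.filter (fun ω : V × V → Bool => Acy G ω S)).card * 2 ^ (eS G S).card ≤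
      (∏ v ∈ S, ((S.filter (G.Adj v)).card + 1)) * Fintype.card (V × V → Bool) := by
  classical
  let T : Finset (V → ℕ) := Fintype.piFinset
    (fun v => if v ∈ S then Finset.range ((S.filter (G.Adj v)).card + 1) else {0})
  let B : Finset (V × V → Bool) := Fintype.piFinset
    (fun p => if p ∈ eS G S then {false} else Finset.univ)
  have hT : T.card = ∏ v ∈ S, ((S.filter (G.Adj v)).card + 1) := by
    rw [Fintype.card_piFinset, ← Finset.prod_subset (Finset.subset_univ S)]
    · refine Finset.prod_congr rfl fun v hv => ?_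
      rw [if_pos hv, Finset.card_range]
    · intro v _ hv
      rw [if_neg hv, Finset.card_singleton]
  have hB : B.card * 2 ^ (eS G S).card = Fintype.card (V × V → Bool) := by
    have h1 : B.card = ∏ p : V × V, (if p ∈ eS G S then 1 else 2) := by
      rw [Fintype.card_piFinset]
      refine Finset.prod_congr rfl fun p _ => ?_
      by_cases hp : p ∈ eS G S
      · rw [if_pos hp, if_pos hp, Finset.card_singleton]
      · rw [if_neg hp, if_neg hp, Finset.card_univ, Fintype.card_bool]
    have h2 : 2 ^ (eS G S).card = ∏ p : V × V, (if p ∈ eS G S then 2 else 1) := by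
      rw [Finset.prod_ite, Finset.prod_const, Finset.prod_const_one, mul_one]
      congr 2
      ext p
      simp
    rw [h1, h2, ← Finset.prod_mul_distrib, Fintype.card_fun, Fintype.card_bool]
    have h3 : ∀ p : V × V, (if p ∈ eS G S then 1 else 2) * (if p ∈ eS G S then 2 else 1) = 2 := by
      intro p
      by_cases hp : p ∈ eS G S
      · rw [if_pos hp, if_pos hp]
      · rw [if_neg hp, if_neg hp]
    rw [Finset.prod_congr rfl (fun p _ => h3 p), Finset.prod_const, Finset.card_univ]
  have hle : (univ.filter (fun ω : V × V → Bool => Acy G ω S)).card ≤ T.card * B.card := by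
    rw [← Finset.card_product]
    refine Finset.card_le_card_of_injOn (fun ω => (fun v => if v ∈ S then
      (S.filter (dir G ω v)).card else 0, fun p => if p ∈ eS G S then false else ω p)) ?_ ?_
    · intro ω _
      rw [Finset.mem_coe, Finset.mem_product, Fintype.mem_piFinset, Fintype.mem_piFinset]
      refine ⟨fun v => ?_, fun p => ?_⟩
      · by_cases hv : v ∈ S
        · simp only [if_pos hv, Finset.mem_range]
          refine Nat.lt_succ_of_le (Finset.card_le_card ?_)
          intro w hw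
          rw [Finset.mem_filter] at hw ⊢
          exact ⟨hw.1, hw.2.1⟩
        · simp only [if_neg hv, Finset.mem_singleton]
      · by_cases hp : p ∈ eS G S
        · simp only [if_pos hp, Finset.mem_singleton]
        · simp only [if_neg hp, Finset.mem_univ]
    · intro ω hω ω' hω' heq
      rw [Finset.mem_coe, Finset.mem_filter] at hω hω'
      simp only [Prod.mk.injEq] at heq
      obtain ⟨h1, h2⟩ := heq
      have hd : ∀ v ∈ S, (S.filter (dir G ω v)).card = (S.filter (dir G ω' v)).card := by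
        intro v hv
        have := congrFun h1 v
        simpa only [if_pos hv] using this
      have h3 := outdeg_inj hω.2 hd
      have h4 := outdeg_inj hω'.2 (fun v hv => (hd v hv).symm)
      funext p
      by_cases hp : p ∈ eS G S
      · obtain ⟨a, b⟩ := p
        simp only [eS, Finset.mem_filter, Finset.mem_product] at hp
        obtain ⟨⟨ha, hb⟩, hlt, hadj⟩ := hp
        rcases hx : ω (a, b) with _ | _
        · have h5 : dir G ω b a := ⟨hadj.symm, Or.inr ⟨hlt, hx⟩⟩
          rcases (h3 b hb a ha h5).2 with h6 | h6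
          · exact absurd h6.1 hlt.asymm
          · exact h6.2.symm
        · have h5 : dir G ω a b := ⟨hadj, Or.inl ⟨hlt, hx⟩⟩
          rcases (h3 a ha b hb h5).2 with h6 | h6
          · exact h6.2.symm
          · exact absurd h6.1 hlt.asymm
      · have := congrFun h2 p
        simpa only [if_neg hp] using this
  calc _ ≤ (T.card * B.card) * 2 ^ (eS G S).card := Nat.mul_le_mul_right _ hle
    _ = _ := by rw [mul_assoc, hB, hT]

theorem sq_cond {K d : ℕ} (h : 9 * K ^ 2 * (d + 1) ^ 2 ≤ 2 ^ d) (hK : 0 < K) {j : ℕ}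
    (hj : d ≤ j) : 9 * K ^ 2 * (j + 1) ^ 2 ≤ 2 ^ j := by
  have hd : 2 ≤ d := by
    by_contra hcon
    have h9 : 9 * 1 ≤ 9 * K ^ 2 := Nat.mul_le_mul_left _ (Nat.pow_pos hK)
    have hd' : d = 0 ∨ d = 1 := by omega
    rcases hd' with rfl | rfl
    · norm_num at h
      omega
    · norm_num at h
      omega
  induction j, hj using Nat.le_induction with
  | base => exact h
  | succ j hj ih =>
    have h2 : (j + 1 + 1) ^ 2 ≤ 2 * (j + 1) ^ 2 := by nlinarith
    calc 9 * K ^ 2 * (j + 1 + 1) ^ 2 ≤ 9 * K ^ 2 * (2 * (j + 1) ^ 2) :=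
          Nat.mul_le_mul_left _ h2
      _ = 2 * (9 * K ^ 2 * (j + 1) ^ 2) := by ring
      _ ≤ 2 * 2 ^ j := Nat.mul_le_mul_left _ ih
      _ = 2 ^ (j + 1) := by ring

open Classical in
/-- the proportion of orientations which are acyclic on a set of minimum degree `d` -/
theorem prob_acy {V : Type*} [Fintype V] [LinearOrder V] (G : SimpleGraph V)
    [DecidableRel G.Adj] {K d : ℕ} (hK : 0 < K) (h : 9 * K ^ 2 * (d + 1) ^ 2 ≤ 2 ^ d)
    (S : Finset V) (hS : ∀ v ∈ S, d ≤ (S.filter (G.Adj v)).card) :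
    (univ.filter (fun ω : V × V → Bool => Acy G ω S)).card * (3 * K) ^ S.card ≤
      Fintype.card (V × V → Bool) := by
  set a := (univ.filter (fun ω : V × V → Bool => Acy G ω S)).card with ha
  set e := (eS G S).card with he
  set Ω := Fintype.card (V × V → Bool) with hΩ
  have h1 := card_acy G S
  have h2 : (∏ v ∈ S, ((S.filter (G.Adj v)).card + 1)) ^ 2 * ((3 * K) ^ S.card) ^ 2 ≤
      (2 ^ e) ^ 2 := by
    have h3 : (2 ^ e) ^ 2 = ∏ v ∈ S, 2 ^ (S.filter (G.Adj v)).card := by
      rw [Finset.prod_pow_eq_pow_sum, ← two_mul_eS, ← pow_mul, mul_comm]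
    rw [h3, ← Finset.prod_pow, ← pow_mul, mul_comm S.card 2, pow_mul, ← Finset.prod_const,
      ← Finset.prod_mul_distrib]
    refine Finset.prod_le_prod' fun v hv => ?_
    refine le_trans (le_of_eq ?_) (sq_cond h hK (hS v hv))
    ring
  have h4 : (a * (3 * K) ^ S.card * 2 ^ e) ^ 2 ≤ (Ω * 2 ^ e) ^ 2 := by
    calc (a * (3 * K) ^ S.card * 2 ^ e) ^ 2 = (a * 2 ^ e) ^ 2 * ((3 * K) ^ S.card) ^ 2 := by ring
      _ ≤ ((∏ v ∈ S, ((S.filter (G.Adj v)).card + 1)) * Ω) ^ 2 * ((3 * K) ^ S.card) ^ 2 :=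
          Nat.mul_le_mul_right _ (Nat.pow_le_pow_left h1 2)
      _ = Ω ^ 2 * ((∏ v ∈ S, ((S.filter (G.Adj v)).card + 1)) ^ 2 * ((3 * K) ^ S.card) ^ 2) := by
          ring
      _ ≤ Ω ^ 2 * (2 ^ e) ^ 2 := Nat.mul_le_mul_left _ h2
      _ = (Ω * 2 ^ e) ^ 2 := by ring
  have h5 : a * (3 * K) ^ S.card * 2 ^ e ≤ Ω * 2 ^ e :=
    (Nat.pow_le_pow_iff_left (by norm_num)).1 h4
  exact Nat.le_of_mul_le_mul_right h5 (by positivity)

end Pool.Agent.H45.EN
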