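import Mathlib

/-!
# Orientations given by bits, independence of disjoint sets of edges, sums over rooted sets
-/

namespace Pool.Agent.H45.EN

open Finset

/-- independence: events depending on disjoint sets of coordinates -/
theorem indep {ι : Type*} [Fintype ι] [DecidableEq ι] (I : Set ι)
    (E F : Finset (ι → Bool))
    (hE : ∀ ω ω' : ι → Bool, (∀ i ∈ I, ω i = ω' i) → ω ∈ E → ω' ∈ E)
    (hF : ∀ ω ω' : ι → Bool, (∀ i, i ∉ I → ω i = ω' i) → ω ∈ F → ω' ∈ F) :
    (E ∩ F).card * Fintype.card (ι → Bool) ≤ E.card * F.card := by
  classical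
  rw [← Finset.card_univ, ← Finset.card_product, ← Finset.card_product]
  let g : (ι → Bool) × (ι → Bool) → (ι → Bool) × (ι → Bool) := fun p =>
    (fun i => if i ∈ I then p.1 i else p.2 i, fun i => if i ∈ I then p.2 i else p.1 i)
  refine Finset.card_le_card_of_injOn g ?_ ?_
  · rintro ⟨a, b⟩ hab
    rw [Finset.mem_coe, Finset.mem_product, Finset.mem_inter] at hab
    obtain ⟨⟨h1, h2⟩, -⟩ := hab
    rw [Finset.mem_coe, Finset.mem_product]
    refine ⟨hE a _ (fun i hi => ?_) h1, hF a _ (fun i hi => ?_) h2⟩
    · simp only [g, if_pos hi]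
    · simp only [g, if_neg hi]
  · rintro ⟨a, b⟩ - ⟨a', b'⟩ - h
    simp only [g, Prod.mk.injEq] at h
    obtain ⟨h1, h2⟩ := h
    have ha : a = a' := by
      funext i
      by_cases hi : i ∈ I
      · have := congrFun h1 i
        simpa only [if_pos hi] using this
      · have := congrFun h2 i
        simpa only [if_neg hi] using this
    have hb : b = b' := by
      funext i
      by_cases hi : i ∈ I
      · have := congrFun h2 i
        simpa only [if_pos hi] using this
      · have := congrFun h1 i
        simpa only [if_neg hi] using this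
    rw [ha, hb]

/-- every vertex of `S` is reached inside `S` from `A` -/
def Rch {V : Type*} (G : SimpleGraph V) (A S : Finset V) : Prop :=
  A ⊆ S ∧ ∀ s ∈ S, ∃ a ∈ A, Relation.ReflTransGen (fun x y => G.Adj x y ∧ y ∈ S) a s

theorem rch_step {V : Type*} [DecidableEq V] {G : SimpleGraph V} [DecidableRel G.Adj]
    {A U S : Finset V} {a : V} (ha : a ∈ A) (hS : S ⊆ A ∪ U) (h : Rch G A S) :
    Rch G (A.erase a ∪ S ∩ U.filter (G.Adj a)) (S.erase a) ∨ a ∈ U := by
  by_cases haU : a ∈ U
  · exact Or.inr haU
  left
  obtain ⟨h1, h2⟩ := h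
  refine ⟨?_, ?_⟩
  · intro x hx
    rw [Finset.mem_union, Finset.mem_erase, Finset.mem_inter, Finset.mem_filter] at hx
    rw [Finset.mem_erase]
    rcases hx with ⟨hx1, hx2⟩ | ⟨hx1, hx2, hx3⟩
    · exact ⟨hx1, h1 hx2⟩
    · exact ⟨fun h => haU (h ▸ hx2), hx1⟩
  · have key : ∀ a' ∈ A, ∀ s, Relation.ReflTransGen (fun x y => G.Adj x y ∧ y ∈ S) a' s →
        s = a ∨ ∃ b ∈ A.erase a ∪ S ∩ U.filter (G.Adj a),
          Relation.ReflTransGen (fun x y => G.Adj x y ∧ y ∈ S.erase a) b s := by
      intro a' ha' s hs
      induction hs with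
      | refl =>
        by_cases haa : a' = a
        · exact Or.inl haa
        · exact Or.inr ⟨a', Finset.mem_union_left _ (Finset.mem_erase.2 ⟨haa, ha'⟩),
            Relation.ReflTransGen.refl⟩
      | @tail b c _ hbc ih =>
        obtain ⟨hadj, hcS⟩ := hbc
        by_cases hca : c = a
        · exact Or.inl hca
        right
        rcases ih with hb | ⟨b', hb', hpath⟩
        · subst hb
          refine ⟨c, ?_, Relation.ReflTransGen.refl⟩
          rw [Finset.mem_union, Finset.mem_erase, Finset.mem_inter, Finset.mem_filter]
          rcases Finset.mem_union.1 (hS hcS) with h3 | h3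
          · exact Or.inl ⟨hca, h3⟩
          · exact Or.inr ⟨hcS, h3, hadj⟩
        · exact ⟨b', hb', hpath.tail ⟨hadj, Finset.mem_erase.2 ⟨hca, hcS⟩⟩⟩
    intro s hs
    rw [Finset.mem_erase] at hs
    obtain ⟨a', ha', hp⟩ := h2 s hs.2
    rcases key a' ha' s hp with h3 | h3
    · exact absurd h3 hs.1
    · exact h3

/-- generating function of the sets rooted at `A` -/
theorem rch_sum {V : Type*} [Fintype V] [DecidableEq V] (G : SimpleGraph V) [DecidableRel G.Adj]
    {D : ℕ} (hD : ∀ v, (univ.filter (G.Adj v)).card ≤ D) {y z : ℝ} (hy : 0 ≤ y) (hz : 0 ≤ z)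
    (hyz : y * (1 + z) ^ D ≤ z) [∀ A : Finset V, DecidablePred (Rch G A)] :
    ∀ (n : ℕ) (A U : Finset V), Disjoint A U → A.card + U.card ≤ n →
      ∑ S ∈ (A ∪ U).powerset.filter (Rch G A), y ^ S.card ≤ z ^ A.card := by
  intro n
  induction n with
  | zero =>
    intro A U _ hn
    have hA : A = ∅ := Finset.card_eq_zero.1 (by omega)
    have hU : U = ∅ := Finset.card_eq_zero.1 (by omega)
    subst hA hU
    rw [Finset.card_empty, pow_zero]
    refine (Finset.sum_le_sum_of_subset_of_nonneg (Finset.filter_subset _ _)
      (fun i _ _ => pow_nonneg hy _)).trans ?_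
    simp
  | succ n ih =>
    intro A U hAU hn
    rcases A.eq_empty_or_nonempty with hA | ⟨a, ha⟩
    · subst hA
      rw [Finset.card_empty, pow_zero]
      have hsub : (∅ ∪ U).powerset.filter (Rch G ∅) ⊆ {∅} := by
        intro S hS
        rw [Finset.mem_filter] at hS
        rw [Finset.mem_singleton]
        by_contra hne
        obtain ⟨s, hs⟩ := Finset.nonempty_iff_ne_empty.2 hne
        obtain ⟨a, ha, -⟩ := hS.2.2 s hs
        exact absurd ha (Finset.notMem_empty _)
      refine (Finset.sum_le_sum_of_subset_of_nonneg hsub
        (fun i _ _ => pow_nonneg hy _)).trans ?_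
      simp
    · have haU : a ∉ U := Finset.disjoint_left.1 hAU ha
      set N := U.filter (G.Adj a) with hN
      have hNcard : N.card ≤ D :=
        (Finset.card_le_card (Finset.filter_subset_filter _ (Finset.subset_univ U))).trans (hD a)
      have hsum : ∑ S ∈ (A ∪ U).powerset.filter (Rch G A), y ^ S.card ≤
          ∑ B ∈ N.powerset, ∑ S ∈ ((A.erase a ∪ B) ∪ (U \ N)).powerset.filter
            (Rch G (A.erase a ∪ B)), y * y ^ S.card := by
        rw [Finset.sum_sigma']
        have hinj : Set.InjOn (fun S : Finset V => (⟨S ∩ N, S.erase a⟩ : (_ : Finset V) × Finset V))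
            ((A ∪ U).powerset.filter (Rch G A) : Finset (Finset V)) := by
          intro S hS S' hS' heq
          have h1 : S.erase a = S'.erase a := by
            have := (Sigma.mk.inj heq).2
            exact eq_of_heq this
          rw [Finset.mem_coe, Finset.mem_filter] at hS hS'
          have h2 := hS.2.1 ha
          have h3 := hS'.2.1 ha
          rw [← Finset.insert_erase h2, ← Finset.insert_erase h3, h1]
        have h4 : ∑ S ∈ (A ∪ U).powerset.filter (Rch G A), y ^ S.card =
            ∑ p ∈ ((A ∪ U).powerset.filter (Rch G A)).image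
              (fun S : Finset V => (⟨S ∩ N, S.erase a⟩ : (_ : Finset V) × Finset V)),
              y * y ^ p.2.card := by
          rw [Finset.sum_image hinj]
          refine Finset.sum_congr rfl fun S hS => ?_
          rw [Finset.mem_filter] at hS
          have h2 := hS.2.1 ha
          have h5 := Finset.card_erase_add_one h2
          simp only
          rw [← h5, pow_succ, mul_comm]
        rw [h4]
        refine Finset.sum_le_sum_of_subset_of_nonneg ?_
          (fun i _ _ => mul_nonneg hy (pow_nonneg hy _))
        intro p hp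
        rw [Finset.mem_image] at hp
        obtain ⟨S, hS, rfl⟩ := hp
        rw [Finset.mem_filter, Finset.mem_powerset] at hS
        obtain ⟨hSsub, hSr⟩ := hS
        rw [Finset.mem_sigma]
        refine ⟨Finset.mem_powerset.2 Finset.inter_subset_right, ?_⟩
        rw [Finset.mem_filter, Finset.mem_powerset]
        simp only
        constructor
        · intro x hx
          rw [Finset.mem_erase] at hx
          have h6 := hSsub hx.2
          rw [Finset.mem_union] at h6
          rw [Finset.mem_union, Finset.mem_union, Finset.mem_erase, Finset.mem_inter,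
            Finset.mem_sdiff]
          by_cases hxN : x ∈ N
          · exact Or.inl (Or.inr ⟨hx.2, hxN⟩)
          · rcases h6 with h6 | h6
            · exact Or.inl (Or.inl ⟨hx.1, h6⟩)
            · exact Or.inr ⟨h6, hxN⟩
        · rcases rch_step ha hSsub hSr with h7 | h7
          · exact h7
          · exact absurd h7 haU
      have hin : ∀ B ∈ N.powerset, ∑ S ∈ ((A.erase a ∪ B) ∪ (U \ N)).powerset.filter
            (Rch G (A.erase a ∪ B)), y * y ^ S.card ≤ y * (z ^ (A.card - 1) * z ^ B.card) := by
        intro B hB
        rw [Finset.mem_powerset] at hB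
        rw [← Finset.mul_sum]
        refine mul_le_mul_of_nonneg_left ?_ hy
        have hdis : Disjoint (A.erase a) B := by
          rw [Finset.disjoint_left]
          intro x hx hx2
          exact Finset.disjoint_left.1 hAU (Finset.mem_of_mem_erase hx)
            (Finset.mem_of_mem_filter _ (hB hx2))
        have hcard : (A.erase a ∪ B).card = A.card - 1 + B.card := by
          rw [Finset.card_union_of_disjoint hdis, Finset.card_erase_of_mem ha]
        rw [← pow_add, ← hcard]
        refine ih _ _ ?_ ?_
        · rw [Finset.disjoint_left]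
          intro x hx hx2
          rw [Finset.mem_sdiff] at hx2
          rw [Finset.mem_union] at hx
          rcases hx with hx | hx
          · exact Finset.disjoint_left.1 hAU (Finset.mem_of_mem_erase hx) hx2.1
          · exact hx2.2 (hB hx)
        · have h8 : (U \ N).card + N.card = U.card :=
            Finset.card_sdiff_add_card_eq_card (Finset.filter_subset _ _)
          have h9 : B.card ≤ N.card := Finset.card_le_card hB
          have h10 : 0 < A.card := Finset.card_pos.2 ⟨a, ha⟩
          omega
      calc ∑ S ∈ (A ∪ U).powerset.filter (Rch G A), y ^ S.card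
          ≤ _ := hsum
        _ ≤ ∑ B ∈ N.powerset, y * (z ^ (A.card - 1) * z ^ B.card) := Finset.sum_le_sum hin
        _ = y * z ^ (A.card - 1) * ∑ B ∈ N.powerset, z ^ B.card := by
          rw [Finset.mul_sum]
          refine Finset.sum_congr rfl fun B _ => ?_
          ring
        _ = y * z ^ (A.card - 1) * (1 + z) ^ N.card := by
          congr 1
          have h11 := Finset.prod_one_add (R := ℝ) (f := fun _ => z) N
          rw [Finset.prod_const] at h11
          rw [h11]
          refine Finset.sum_congr rfl fun B _ => ?_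
          rw [Finset.prod_const]
        _ ≤ y * z ^ (A.card - 1) * (1 + z) ^ D := by
          refine mul_le_mul_of_nonneg_left ?_ (mul_nonneg hy (pow_nonneg hz _))
          exact pow_le_pow_right₀ (by linarith) hNcard
        _ = (y * (1 + z) ^ D) * z ^ (A.card - 1) := by ring
        _ ≤ z * z ^ (A.card - 1) := mul_le_mul_of_nonneg_right hyz (pow_nonneg hz _)
        _ = z ^ A.card := by
          rw [← pow_succ']
          congr 1
          have h10 : 0 < A.card := Finset.card_pos.2 ⟨a, ha⟩
          omega

end Pool.Agent.H45.EN
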