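import Pool.Agent.H45.EN.Rosen
import Pool.Agent.H41.ENL.Fam

/-!
# Cover-free families of quadratic size
-/

namespace Pool.Agent.H45.EN

open Finset

theorem pow_three {t m : ℕ} (ht : 0 < t) (hm : m ≤ t) : (t + 1) ^ m ≤ 3 * t ^ m := by
  have h1 : ((t : ℝ) + 1) ^ t ≤ 3 * (t : ℝ) ^ t := by
    have h2 := e_bound t ht
    have h3 : (0 : ℝ) < t := by exact_mod_cast ht
    have h4 : (1 + 1 / (t : ℝ)) = ((t : ℝ) + 1) / t := by field_simp
    rw [h4, div_pow, div_le_iff₀ (by positivity)] at h2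
    exact h2
  have h2 : (t + 1) ^ t ≤ 3 * t ^ t := by exact_mod_cast h1
  have h3 : (t + 1) ^ m * t ^ (t - m) ≤ (3 * t ^ m) * t ^ (t - m) := by
    calc (t + 1) ^ m * t ^ (t - m) ≤ (t + 1) ^ m * (t + 1) ^ (t - m) :=
          Nat.mul_le_mul_left _ (Nat.pow_le_pow_left (Nat.le_succ t) _)
      _ = (t + 1) ^ t := by rw [← pow_add]; congr 1; omega
      _ ≤ 3 * t ^ t := h2
      _ = (3 * t ^ m) * t ^ (t - m) := by
        rw [mul_assoc, ← pow_add]
        congr 2
        omega
  exact Nat.le_of_mul_le_mul_right h3 (by positivity)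

/-- number of functions selecting `c` and avoiding `M` -/
theorem card_sel {N t : ℕ} (ht : 0 < t) (c : Fin N) (M : Finset (Fin N)) (hM : M.card ≤ t)
    (hc : c ∉ M) :
    (t + 1) ^ N ≤ (univ.filter (fun g : Fin N → Fin (t + 1) => g c = 0 ∧ ∀ a ∈ M, g a ≠ 0)).card *
      (3 * (t + 1)) := by
  classical
  have h1 : (univ.filter (fun g : Fin N → Fin (t + 1) => g c = 0 ∧ ∀ a ∈ M, g a ≠ 0)) =
      Fintype.piFinset (fun a : Fin N => if a = c then {0} else if a ∈ M then univ.erase 0
        else univ) := by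
    ext g
    rw [Finset.mem_filter, Fintype.mem_piFinset]
    constructor
    · rintro ⟨-, h2, h3⟩ a
      by_cases ha : a = c
      · rw [if_pos ha, ha, h2]
        exact Finset.mem_singleton_self _
      · rw [if_neg ha]
        by_cases haM : a ∈ M
        · rw [if_pos haM]
          exact Finset.mem_erase.2 ⟨h3 a haM, Finset.mem_univ _⟩
        · rw [if_neg haM]
          exact Finset.mem_univ _
    · intro h
      refine ⟨Finset.mem_univ _, ?_, ?_⟩
      · have := h c
        rw [if_pos rfl, Finset.mem_singleton] at this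
        exact this
      · intro a ha
        have h2 := h a
        have hac : a ≠ c := fun h3 => hc (h3 ▸ ha)
        rw [if_neg hac, if_pos ha, Finset.mem_erase] at h2
        exact h2.1
  rw [h1, Fintype.card_piFinset]
  have h2 : ∀ a : Fin N, (if a = c then ({0} : Finset (Fin (t + 1))) else if a ∈ M then
      univ.erase 0 else univ).card = (if a = c then 1 else if a ∈ M then t else t + 1) := by
    intro a
    split_ifs
    · rw [Finset.card_singleton]
    · rw [Finset.card_erase_of_mem (Finset.mem_univ _), Finset.card_univ, Fintype.card_fin,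
        Nat.add_sub_cancel]
    · rw [Finset.card_univ, Fintype.card_fin]
  rw [Finset.prod_congr rfl (fun a _ => h2 a)]
  -- compare with the product of `t + 1`
  have h3 : (∏ a : Fin N, (if a = c then (t + 1) else 1)) = t + 1 := by
    rw [Finset.prod_ite_eq' univ c (fun _ => t + 1), if_pos (Finset.mem_univ _)]
  have h4 : (∏ a : Fin N, (if a ∈ M then (t + 1) else 1)) = (t + 1) ^ M.card := by
    rw [Finset.prod_ite, Finset.prod_const, Finset.prod_const_one, mul_one]
    congr 2
    ext a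
    simp
  have h5 : (∏ a : Fin N, (if a ∈ M then t else 1)) = t ^ M.card := by
    rw [Finset.prod_ite, Finset.prod_const, Finset.prod_const_one, mul_one]
    congr 2
    ext a
    simp
  have h6 : (∏ a : Fin N, (if a = c then 1 else if a ∈ M then t else t + 1)) *
      (∏ a : Fin N, (if a = c then (t + 1) else 1)) * (∏ a : Fin N, (if a ∈ M then (t + 1) else 1))
      = (t + 1) ^ N * (∏ a : Fin N, (if a ∈ M then t else 1)) := by
    rw [← Finset.prod_mul_distrib, ← Finset.prod_mul_distrib]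
    have h7 : (t + 1) ^ N = ∏ _a : Fin N, (t + 1) := by
      rw [Finset.prod_const, Finset.card_univ, Fintype.card_fin]
    rw [h7, ← Finset.prod_mul_distrib]
    refine Finset.prod_congr rfl fun a _ => ?_
    by_cases ha : a = c
    · have haM : a ∉ M := ha ▸ hc
      rw [if_pos ha, if_pos ha, if_neg haM, if_neg haM]
      ring
    · rw [if_neg ha, if_neg ha]
      by_cases haM : a ∈ M
      · rw [if_pos haM, if_pos haM, if_pos haM]
        ring
      · rw [if_neg haM, if_neg haM, if_neg haM]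
        ring
  rw [h3, h4, h5] at h6
  set x := ∏ a : Fin N, (if a = c then 1 else if a ∈ M then t else t + 1) with hx
  have h8 := pow_three ht hM
  have h9 : (t + 1) ^ N * (t + 1) ^ M.card ≤ (x * (3 * (t + 1))) * (t + 1) ^ M.card := by
    calc (t + 1) ^ N * (t + 1) ^ M.card ≤ (t + 1) ^ N * (3 * t ^ M.card) :=
          Nat.mul_le_mul_left _ h8
      _ = 3 * ((t + 1) ^ N * t ^ M.card) := by ring
      _ = 3 * (x * (t + 1) * (t + 1) ^ M.card) := by rw [h6]
      _ = _ := by ring
  exact Nat.le_of_mul_le_mul_right h9 (by positivity)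

/-- the set listed by `μ` -/
def lst {N t : ℕ} (μ : Fin t → Option (Fin N)) : Finset (Fin N) :=
  univ.filter (fun a => ∃ i, μ i = some a)

theorem card_lst {N t : ℕ} (μ : Fin t → Option (Fin N)) : (lst μ).card ≤ t := by
  classical
  have h1 : ((lst μ).map ⟨some, Option.some_injective _⟩) ⊆ (univ : Finset (Fin t)).image μ := by
    intro x hx
    rw [Finset.mem_map] at hx
    obtain ⟨a, ha, rfl⟩ := hx
    obtain ⟨i, hi⟩ := (Finset.mem_filter.1 ha).2
    exact Finset.mem_image.2 ⟨i, Finset.mem_univ _, hi⟩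
  have h2 := (Finset.card_le_card h1).trans Finset.card_image_le
  rw [Finset.card_map, Finset.card_univ, Fintype.card_fin] at h2
  exact h2

/-- a cover-free family -/
theorem coverfree {N t ℓ : ℕ} (ht : 0 < t) (hN : N ≤ 2 ^ ℓ) :
    ∃ F : Fin (3 * (t + 1) * ((ℓ + 1) * (t + 1))) → Fin N → Fin (t + 1),
      ∀ (c : Fin N) (M : Finset (Fin N)), M.card ≤ t → c ∉ M →
        ∃ j, F j c = 0 ∧ ∀ a ∈ M, F j a ≠ 0 := by
  classical
  set J := 3 * (t + 1) * ((ℓ + 1) * (t + 1)) with hJ
  by_contra hcon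
  push Not at hcon
  let bad : Fin N × (Fin t → Option (Fin N)) → Finset (Fin N → Fin (t + 1)) := fun x =>
    univ.filter (fun g => ¬ (g x.1 = 0 ∧ ∀ a ∈ lst x.2, g a ≠ 0))
  let idx : Finset (Fin N × (Fin t → Option (Fin N))) := univ.filter (fun x => x.1 ∉ lst x.2)
  have hcov : (univ : Finset (Fin J → Fin N → Fin (t + 1))) ⊆
      idx.biUnion (fun x => Fintype.piFinset (fun _ : Fin J => bad x)) := by
    intro F _
    obtain ⟨c, M, hM, hc, hF⟩ := hcon F
    obtain ⟨μ, hμ1, hμ2⟩ := Pool.Agent.H41.ENL.exists_enum (M : Set (Fin N)) t (by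
      rw [Set.encard_coe_eq_coe_finsetCard]
      exact_mod_cast hM)
    have hlst : ∀ a, a ∈ lst μ ↔ a ∈ M := by
      intro a
      rw [lst, Finset.mem_filter]
      constructor
      · rintro ⟨-, i, hi⟩
        exact_mod_cast hμ2 i a hi
      · intro ha
        exact ⟨Finset.mem_univ _, hμ1 a (by exact_mod_cast ha)⟩
    rw [Finset.mem_biUnion]
    refine ⟨(c, μ), Finset.mem_filter.2 ⟨Finset.mem_univ _, ?_⟩, ?_⟩
    · rw [hlst]
      exact hc
    · rw [Fintype.mem_piFinset]
      intro j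
      refine Finset.mem_filter.2 ⟨Finset.mem_univ _, ?_⟩
      rintro ⟨h1, h2⟩
      obtain ⟨a, ha, h3⟩ := hF j h1
      exact h2 a ((hlst a).2 ha) h3
  have hbad : ∀ x ∈ idx, (bad x).card * (3 * (t + 1)) ≤ (t + 1) ^ N * (3 * (t + 1) - 1) := by
    intro x hx
    have h1 := card_sel ht x.1 (lst x.2) (card_lst x.2) (Finset.mem_filter.1 hx).2
    have h2 := Finset.card_filter_add_card_filter_not (s := (univ : Finset (Fin N → Fin (t + 1))))
      (fun g => g x.1 = 0 ∧ ∀ a ∈ lst x.2, g a ≠ 0)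
    rw [Finset.card_univ, Fintype.card_fun, Fintype.card_fin, Fintype.card_fin] at h2
    have h3 : (univ.filter (fun g : Fin N → Fin (t + 1) =>
        g x.1 = 0 ∧ ∀ a ∈ lst x.2, g a ≠ 0)).card * (3 * (t + 1)) + (bad x).card * (3 * (t + 1))
        = (t + 1) ^ N * (3 * (t + 1)) := by
      rw [← add_mul, h2]
    rw [Nat.mul_sub, mul_one]
    omega
  have h1 := (Finset.card_le_card hcov).trans Finset.card_biUnion_le
  rw [Finset.card_univ, Fintype.card_fun, Fintype.card_fun, Fintype.card_fin, Fintype.card_fin,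
    Fintype.card_fin] at h1
  set m := 3 * (t + 1) with hm
  have hmpos : 0 < m := by omega
  have h2 : ∑ x ∈ idx, (Fintype.piFinset (fun _ : Fin J => bad x)).card * m ^ J ≤
      ∑ _x ∈ idx, ((t + 1) ^ N) ^ J * (m - 1) ^ J := by
    refine Finset.sum_le_sum fun x hx => ?_
    rw [Fintype.card_piFinset, Finset.prod_const, Finset.card_univ, Fintype.card_fin,
      ← mul_pow, ← mul_pow]
    exact Nat.pow_le_pow_left (hbad x hx) J
  have h3 : idx.card < 2 ^ ((ℓ + 1) * (t + 1)) := by
    have h4 : idx.card ≤ N * (N + 1) ^ t := by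
      refine (Finset.card_le_univ _).trans (le_of_eq ?_)
      rw [Fintype.card_prod, Fintype.card_fun, Fintype.card_option, Fintype.card_fin,
        Fintype.card_fin]
    have hpos : 0 < 2 ^ ℓ := by positivity
    have h5 : N + 1 ≤ 2 ^ (ℓ + 1) := by
      rw [pow_succ]
      omega
    calc idx.card ≤ N * (N + 1) ^ t := h4
      _ < 2 ^ (ℓ + 1) * (2 ^ (ℓ + 1)) ^ t := by
          refine Nat.mul_lt_mul_of_lt_of_le (by omega) (Nat.pow_le_pow_left h5 t) (by positivity)
      _ = 2 ^ ((ℓ + 1) * (t + 1)) := by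
          rw [← pow_succ', ← pow_mul]
  have h4 : ((t + 1) ^ N) ^ J * m ^ J ≤ idx.card * (((t + 1) ^ N) ^ J * (m - 1) ^ J) := by
    calc ((t + 1) ^ N) ^ J * m ^ J
        ≤ (∑ x ∈ idx, (Fintype.piFinset (fun _ : Fin J => bad x)).card) * m ^ J :=
          Nat.mul_le_mul_right _ h1
      _ = ∑ x ∈ idx, (Fintype.piFinset (fun _ : Fin J => bad x)).card * m ^ J :=
          Finset.sum_mul _ _ _
      _ ≤ ∑ _x ∈ idx, ((t + 1) ^ N) ^ J * (m - 1) ^ J := h2
      _ = idx.card * (((t + 1) ^ N) ^ J * (m - 1) ^ J) := by rw [Finset.sum_const, smul_eq_mul]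
  have h5 : ((t + 1) ^ N) ^ J * m ^ J ≤ ((t + 1) ^ N) ^ J * (idx.card * (m - 1) ^ J) := by
    calc _ ≤ _ := h4
      _ = _ := by ring
  have h6 := Nat.le_of_mul_le_mul_left h5 (by positivity)
  have h7 : 2 ^ ((ℓ + 1) * (t + 1)) * (m - 1) ^ J ≤ m ^ J := by
    have h8 : J = m * ((ℓ + 1) * (t + 1)) := rfl
    rw [h8, pow_mul (m - 1), pow_mul m, ← mul_pow]
    exact Nat.pow_le_pow_left (Pool.Agent.H41.ENL.pow_half m hmpos) _
  have h9 : 0 < (m - 1) ^ J := Nat.pow_pos (by omega)
  have h10 : idx.card * (m - 1) ^ J < 2 ^ ((ℓ + 1) * (t + 1)) * (m - 1) ^ J :=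
    Nat.mul_lt_mul_of_pos_right h3 h9
  omega

end Pool.Agent.H45.EN
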