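import Pool.Agent.H41.ENL.Tour
import Pool.Agent.H45.EN.Free

/-!
# Covers by complete multipartite graphs: an orientation pulled back from a tournament on colours
-/

namespace Pool.Agent.H45.EN

open Finset Pool.Agent.H41.ENL

/-- `u` and `v` are in different parts of one of the multipartite graphs -/
def Cov {V W P : Type*} (part : W → V → Option P) (u v : V) : Prop :=
  ∃ w i j, part w u = some i ∧ part w v = some j ∧ i ≠ j

theorem Cov.symm {V W P : Type*} {part : W → V → Option P} {u v : V} (h : Cov part u v) :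
    Cov part v u := by
  obtain ⟨w, i, j, h1, h2, h3⟩ := h
  exact ⟨w, j, i, h2, h1, h3.symm⟩

section
variable {V P : Type*} {N : ℕ} (S : Set V) (c : V → Fin N) (pt : V → Option P)

open Classical in
/-- colours of the vertices of `S` in the parts of `J` -/
noncomputable def cs (J : Set P) : Finset (Fin N) :=
  univ.filter (fun a => ∃ v ∈ S, c v = a ∧ ∃ i ∈ J, pt v = some i)

theorem mem_cs {J : Set P} {a : Fin N} :
    a ∈ cs S c pt J ↔ ∃ v ∈ S, c v = a ∧ ∃ i ∈ J, pt v = some i := by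
  classical
  rw [cs, Finset.mem_filter]
  exact ⟨fun h => h.2, fun h => ⟨Finset.mem_univ _, h⟩⟩

theorem cs_mono {J J' : Set P} (h : J ⊆ J') : cs S c pt J ⊆ cs S c pt J' := by
  intro a ha
  rw [mem_cs] at ha ⊢
  obtain ⟨v, hv, h1, i, hi, h2⟩ := ha
  exact ⟨v, hv, h1, i, h hi, h2⟩

theorem cs_union (J J' : Set P) : cs S c pt (J ∪ J') ⊆ cs S c pt J ∪ cs S c pt J' := by
  classical
  intro a ha
  rw [mem_cs] at ha
  obtain ⟨v, hv, h1, i, hi, h2⟩ := ha
  rw [Finset.mem_union, mem_cs, mem_cs]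
  rcases hi with hi | hi
  · exact Or.inl ⟨v, hv, h1, i, hi, h2⟩
  · exact Or.inr ⟨v, hv, h1, i, hi, h2⟩

/-- all but few colours are in one part -/
theorem minor [Finite V] {s : ℕ} (hs : 0 < s)
    (hdich : ∀ J : Set P, (cs S c pt J).card < s ∨ (cs S c pt Jᶜ).card < s) :
    ∃ Q : Finset (Fin N), Q.card ≤ 3 * s ∧ ∀ u ∈ S, ∀ v ∈ S, ∀ i j, pt u = some i →
      pt v = some j → i ≠ j → c u ∈ Q ∨ c v ∈ Q := by
  classical
  by_cases htot : (cs S c pt Set.univ).card ≤ 3 * s
  · refine ⟨_, htot, ?_⟩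
    intro u hu v _ i j hi _ _
    left
    rw [mem_cs]
    exact ⟨u, hu, rfl, i, Set.mem_univ _, hi⟩
  push Not at htot
  have hex : ∃ i : P, s ≤ (cs S c pt {i}).card := by
    by_contra hcon
    push Not at hcon
    have hall : ∀ I : Finset P, (cs S c pt (I : Set P)).card < s := by
      intro I
      induction I using Finset.induction_on with
      | empty =>
        have : cs S c pt ((∅ : Finset P) : Set P) = ∅ := by
          rw [Finset.eq_empty_iff_forall_notMem]
          intro a ha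
          rw [mem_cs] at ha
          obtain ⟨v, hv, h1, i, hi, h2⟩ := ha
          rw [Finset.coe_empty] at hi
          exact hi
        rw [this, Finset.card_empty]
        exact hs
      | insert i I _ ih =>
        rw [Finset.coe_insert, Set.insert_eq]
        rcases hdich ({i} ∪ (I : Set P)) with h1 | h1
        · exact h1
        · exfalso
          have h2 : (cs S c pt ({i} ∪ (I : Set P))).card ≤ s + s :=
            (Finset.card_le_card (cs_union S c pt _ _)).trans
              ((Finset.card_union_le _ _).trans (Nat.add_le_add (hcon i).le ih.le))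
          have h3 : (cs S c pt Set.univ).card ≤ (cs S c pt ({i} ∪ (I : Set P))).card +
              (cs S c pt ({i} ∪ (I : Set P))ᶜ).card := by
            have h4 := cs_union S c pt ({i} ∪ (I : Set P)) ({i} ∪ (I : Set P))ᶜ
            rw [Set.union_compl_self] at h4
            exact (Finset.card_le_card h4).trans (Finset.card_union_le _ _)
          omega
    have hfin := Fintype.ofFinite V
    have h1 := hall ((univ : Finset V).biUnion (fun v => (pt v).toFinset))
    have h2 : cs S c pt Set.univ ⊆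
        cs S c pt (((univ : Finset V).biUnion (fun v => (pt v).toFinset) : Finset P) : Set P) := by
      intro a ha
      rw [mem_cs] at ha ⊢
      obtain ⟨v, hv, h1, i, _, h2⟩ := ha
      refine ⟨v, hv, h1, i, ?_, h2⟩
      rw [Finset.mem_coe, Finset.mem_biUnion]
      refine ⟨v, Finset.mem_univ _, ?_⟩
      rw [Option.mem_toFinset, h2]
      rfl
    have h3 := Finset.card_le_card h2
    omega
  obtain ⟨i0, hi0⟩ := hex
  rcases hdich {i0} with h1 | h1
  · omega
  refine ⟨cs S c pt {i0}ᶜ, by omega, ?_⟩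
  intro u hu v hv i j hi hj hij
  by_cases h2 : i = i0
  · right
    rw [mem_cs]
    refine ⟨v, hv, rfl, j, ?_, hj⟩
    intro h3
    rw [Set.mem_singleton_iff] at h3
    exact hij (h2.trans h3.symm)
  · left
    rw [mem_cs]
    exact ⟨u, hu, rfl, i, h2, hi⟩

end

theorem pow_cond21 {ℓ : ℕ} (hℓ : 0 < ℓ) : (2 ^ ℓ) ^ 4 * 7 ^ (21 * ℓ) < 8 ^ (21 * ℓ) := by
  have h1 : (2 ^ ℓ) ^ 4 = 16 ^ ℓ := by
    rw [← pow_mul, mul_comm, pow_mul]
    norm_num
  rw [h1, pow_mul, pow_mul, ← mul_pow]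
  exact Nat.pow_lt_pow_left (by norm_num) hℓ.ne'

/-- **Covers.** An orientation for which the graph of the covered edges is cheap to colour on every
acyclic set -/
theorem coverPart {V W P : Type*} [Finite V] (G : SimpleGraph V) (part : W → V → Option P)
    {q ℓ : ℕ} (hℓ : 0 < ℓ)
    (hc : ∀ w u v i j, part w u = some i → part w v = some j → i ≠ j → G.Adj u v)
    (hq : ∀ v, {w | part w v ≠ none}.encard ≤ q) (hcol : G.Colorable (2 ^ ℓ)) :
    ∃ O : V → V → Prop, (∀ u v, O u v → G.Adj u v) ∧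
      (∀ u v, G.Adj u v → (O u v ∧ ¬ O v u) ∨ (O v u ∧ ¬ O u v)) ∧
      ∀ S : Set V,
        (∀ x, ¬ Relation.TransGen (fun u v => (O u v ∧ Cov part u v) ∧ u ∈ S ∧ v ∈ S) x x) →
        ∃ f : V → Fin (1 + 400000 * q ^ 2 * ℓ ^ 3), ∀ u ∈ S, ∀ v ∈ S, Cov part u v → f u ≠ f v := by
  classical
  obtain ⟨col⟩ := hcol
  obtain ⟨T, hT1, hT2⟩ := exists_tour (Fin (2 ^ ℓ)) (21 * ℓ) (by positivity)
    (by rw [Fintype.card_fin]; exact pow_cond21 hℓ)
  refine ⟨fun u v => G.Adj u v ∧ T (col u) (col v) = true, fun u v h => h.1, ?_, ?_⟩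
  · intro u v huv
    have h1 := hT1 _ _ (col.valid huv)
    rcases h2 : T (col v) (col u) with _ | _
    · rw [h2] at h1
      left
      refine ⟨⟨huv, h1⟩, fun h3 => ?_⟩
      have h4 := h3.2
      rw [h2] at h4
      exact absurd h4 (by decide)
    · rw [h2] at h1
      right
      refine ⟨⟨huv.symm, h2⟩, fun h3 => ?_⟩
      have h4 := h3.2
      rw [h1] at h4
      exact absurd h4 (by decide)
  intro S hS
  rcases Nat.eq_zero_or_pos q with hq0 | hqpos
  · subst hq0
    refine ⟨fun _ => 0, ?_⟩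
    rintro u _ v _ ⟨w, i, j, h1, _⟩
    exfalso
    have h2 := hq u
    rw [Nat.cast_zero, nonpos_iff_eq_zero, Set.encard_eq_zero] at h2
    have h3 : w ∈ {w | part w u ≠ none} := by
      rw [Set.mem_ofPred_eq, h1]
      exact Option.some_ne_none i
    rw [h2] at h3
    exact h3
  -- the minor colours of each multipartite graph
  have hdich : ∀ w, ∀ J : Set P, (cs S col (part w) J).card < 4 * (21 * ℓ) ∨
      (cs S col (part w) Jᶜ).card < 4 * (21 * ℓ) := by
    intro w J
    by_contra hcon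
    push Not at hcon
    have hdis : Disjoint (cs S col (part w) J) (cs S col (part w) Jᶜ) := by
      rw [Finset.disjoint_left]
      intro a ha hb
      rw [mem_cs] at ha hb
      obtain ⟨u, hu, hcu, i, hi, hui⟩ := ha
      obtain ⟨v, hv, hcv, j, hj, hvj⟩ := hb
      have hij : i ≠ j := fun h => hj (h ▸ hi)
      exact col.valid (hc w u v i j hui hvj hij) (hcu.trans hcv.symm)
    obtain ⟨a, ha, a', ha', b, hb, b', hb', hcyc⟩ := hT2 _ _ hdis hcon.1 hcon.2
    rw [mem_cs] at ha ha' hb hb'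
    obtain ⟨u, hu, rfl, i, hi, hui⟩ := ha
    obtain ⟨u', hu', rfl, i', hi', hui'⟩ := ha'
    obtain ⟨v, hv, rfl, j, hj, hvj⟩ := hb
    obtain ⟨v', hv', rfl, j', hj', hvj'⟩ := hb'
    have n1 : i ≠ j := fun h => hj (h ▸ hi)
    have n2 : i' ≠ j := fun h => hj (h ▸ hi')
    have n3 : i' ≠ j' := fun h => hj' (h ▸ hi')
    have n4 : i ≠ j' := fun h => hj' (h ▸ hi)
    refine hS u ?_
    refine Relation.TransGen.trans (Relation.TransGen.trans (Relation.TransGen.trans
      (b := v) (Relation.TransGen.single ?_) (c := u') (Relation.TransGen.single ?_))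
      (c := v') (Relation.TransGen.single ?_)) (Relation.TransGen.single ?_)
    · exact ⟨⟨⟨hc w _ _ _ _ hui hvj n1, hcyc.1⟩, w, i, j, hui, hvj, n1⟩, hu, hv⟩
    · exact ⟨⟨⟨hc w _ _ _ _ hvj hui' n2.symm, hcyc.2.1⟩, w, j, i', hvj, hui', n2.symm⟩, hv, hu'⟩
    · exact ⟨⟨⟨hc w _ _ _ _ hui' hvj' n3, hcyc.2.2.1⟩, w, i', j', hui', hvj', n3⟩, hu', hv'⟩
    · exact ⟨⟨⟨hc w _ _ _ _ hvj' hui n4.symm, hcyc.2.2.2⟩, w, j', i, hvj', hui, n4.symm⟩,
        hv', hu⟩
  choose Q hQ1 hQ2 using fun w => minor S col (part w) (by positivity : 0 < 4 * (21 * ℓ)) (hdich w)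
  have hfin : ∀ v, {w | part w v ≠ none}.Finite := fun v => Set.finite_of_encard_le_coe (hq v)
  let F : V → Finset (Fin (2 ^ ℓ)) := fun v => (hfin v).toFinset.biUnion Q
  have hF : ∀ v, (F v).card ≤ q * (3 * (4 * (21 * ℓ))) := by
    intro v
    refine (Finset.card_biUnion_le_card_mul _ _ _ (fun w _ => hQ1 w)).trans ?_
    refine Nat.mul_le_mul_right _ ?_
    have h1 := hq v
    rw [(hfin v).encard_eq_coe_toFinset_card] at h1
    exact_mod_cast h1
  have hFe : ∀ u ∈ S, ∀ v ∈ S, Cov part u v → col u ∈ F v ∨ col v ∈ F u := by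
    rintro u hu v hv ⟨w, i, j, h1, h2, h3⟩
    have hwu : w ∈ (hfin u).toFinset := by
      rw [Set.Finite.mem_toFinset, Set.mem_ofPred_eq, h1]
      exact Option.some_ne_none i
    have hwv : w ∈ (hfin v).toFinset := by
      rw [Set.Finite.mem_toFinset, Set.mem_ofPred_eq, h2]
      exact Option.some_ne_none j
    rcases hQ2 w u hu v hv i j h1 h2 h3 with h4 | h4
    · exact Or.inl (Finset.mem_biUnion.2 ⟨w, hwv, h4⟩)
    · exact Or.inr (Finset.mem_biUnion.2 ⟨w, hwu, h4⟩)
  set t := q * (3 * (4 * (21 * ℓ))) with ht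
  have ht0 : 0 < t := by positivity
  obtain ⟨A, hA⟩ := coverfree ht0 (le_refl (2 ^ ℓ))
  have hx : ∀ v, ∃ j, A j (col v) = 0 ∧ ∀ a ∈ (F v).erase (col v), A j a ≠ 0 := fun v =>
    hA (col v) ((F v).erase (col v))
      ((Finset.card_le_card (Finset.erase_subset _ _)).trans (hF v)) (Finset.notMem_erase _ _)
  choose x hx1 hx2 using hx
  have hcard : 3 * (t + 1) * ((ℓ + 1) * (t + 1)) ≤ 1 + 400000 * q ^ 2 * ℓ ^ 3 := by
    have h1 : t + 1 ≤ 253 * (q * ℓ) := by
      have h2 : 0 < q * ℓ := Nat.mul_pos hqpos hℓ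
      have h3 : t = 252 * (q * ℓ) := by rw [ht]; ring
      omega
    have h2 : ℓ + 1 ≤ 2 * ℓ := by omega
    calc 3 * (t + 1) * ((ℓ + 1) * (t + 1)) ≤
          3 * (253 * (q * ℓ)) * ((2 * ℓ) * (253 * (q * ℓ))) :=
          Nat.mul_le_mul (Nat.mul_le_mul_left _ h1) (Nat.mul_le_mul h2 h1)
      _ = 384054 * (q ^ 2 * ℓ ^ 3) := by ring
      _ ≤ 400000 * (q ^ 2 * ℓ ^ 3) := Nat.mul_le_mul_right _ (by norm_num)
      _ = 400000 * q ^ 2 * ℓ ^ 3 := by ring
      _ ≤ _ := Nat.le_add_left _ _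
  refine ⟨fun v => Fin.castLE hcard (x v), ?_⟩
  intro u hu v hv huv heq
  have hxx : x u = x v := Fin.castLE_injective hcard heq
  have hne : col u ≠ col v := by
    obtain ⟨w, i, j, h1, h2, h3⟩ := huv
    exact col.valid (hc w u v i j h1 h2 h3)
  rcases hFe u hu v hv huv with h2 | h2
  · refine hx2 v (col u) (Finset.mem_erase.2 ⟨hne, h2⟩) ?_
    rw [← hxx]
    exact hx1 u
  · refine hx2 u (col v) (Finset.mem_erase.2 ⟨hne.symm, h2⟩) ?_
    rw [hxx]
    exact hx1 v

end Pool.Agent.H45.EN
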