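import Pool.Agent.H45.EN.Rosen

/-!
# Graphs of bounded degree: an orientation all of whose acyclic sets have small chromatic number
-/

namespace Pool.Agent.H45.EN

open Finset

theorem colour_of_degen {V : Type*} [DecidableEq V] (G : SimpleGraph V) [DecidableRel G.Adj]
    {d : ℕ} (hd : 0 < d) : ∀ (n : ℕ) (S : Finset V), S.card = n →
      (∀ T ⊆ S, T.Nonempty → ∃ v ∈ T, (T.filter (G.Adj v)).card < d) →
      ∃ f : V → Fin d, ∀ u ∈ S, ∀ v ∈ S, G.Adj u v → f u ≠ f v := by
  intro n
  induction n with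
  | zero =>
    intro S hS _
    rw [Finset.card_eq_zero] at hS
    subst hS
    exact ⟨fun _ => ⟨0, hd⟩, fun u hu => absurd hu (Finset.notMem_empty _)⟩
  | succ n ih =>
    intro S hS h
    obtain ⟨v, hv, hdeg⟩ := h S (Finset.Subset.refl S) (Finset.card_pos.1 (by omega))
    obtain ⟨f, hf⟩ := ih (S.erase v) (by rw [Finset.card_erase_of_mem hv]; omega)
      (fun T hT hTn => h T (hT.trans (Finset.erase_subset _ _)) hTn)
    have hex : ∃ c : Fin d, c ∉ (S.filter (G.Adj v)).image f := by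
      by_contra hcon
      push Not at hcon
      have h1 : (univ : Finset (Fin d)) ⊆ (S.filter (G.Adj v)).image f := fun c _ => hcon c
      have h2 := (Finset.card_le_card h1).trans Finset.card_image_le
      rw [Finset.card_univ, Fintype.card_fin] at h2
      omega
    obtain ⟨c, hc⟩ := hex
    refine ⟨Function.update f v c, ?_⟩
    intro u hu w hw huw
    by_cases h1 : u = v
    · subst h1
      have h2 : w ≠ u := huw.ne'
      rw [Function.update_self, Function.update_of_ne h2]
      intro h3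
      exact hc (Finset.mem_image.2 ⟨w, Finset.mem_filter.2 ⟨hw, huw⟩, h3.symm⟩)
    · by_cases h2 : w = v
      · subst h2
        rw [Function.update_self, Function.update_of_ne h1]
        intro h3
        exact hc (Finset.mem_image.2 ⟨u, Finset.mem_filter.2 ⟨hu, huw.symm⟩, h3⟩)
      · rw [Function.update_of_ne h1, Function.update_of_ne h2]
        exact hf u (Finset.mem_erase.2 ⟨h1, hu⟩) w (Finset.mem_erase.2 ⟨h2, hw⟩) huw

theorem acy_mono {V : Type*} [LinearOrder V] {G : SimpleGraph V}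
    {ω : V × V → Bool} {S T : Finset V} (h : T ⊆ S) (h1 : Acy G ω S) : Acy G ω T := by
  intro x hx
  refine h1 x (Relation.TransGen.mono (r := fun u v => dir G ω u v ∧ u ∈ T ∧ v ∈ T) ?_ x x hx)
  rintro a b ⟨hab, ha, hb⟩
  exact ⟨hab, h ha, h hb⟩

theorem degen_of_good {V : Type*} [LinearOrder V] {G : SimpleGraph V}
    [DecidableRel G.Adj] {d : ℕ} {ω : V × V → Bool} (hω : ∀ S, ¬ Bad G d ω S) {S : Finset V}
    (hS : Acy G ω S) : ∀ T ⊆ S, T.Nonempty → ∃ v ∈ T, (T.filter (G.Adj v)).card < d := by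
  classical
  rintro T hT ⟨v, hv⟩
  by_contra hcon
  push Not at hcon
  let C : Finset V := T.filter
    (fun s => Relation.ReflTransGen (fun x y => G.Adj x y ∧ y ∈ T) v s)
  have hvC : v ∈ C := Finset.mem_filter.2 ⟨hv, Relation.ReflTransGen.refl⟩
  refine hω C ⟨⟨v, Finset.singleton_subset_iff.2 hvC, ?_⟩, ?_, ?_⟩
  · intro s hs
    refine ⟨v, Finset.mem_singleton_self v, ?_⟩
    have hpath := (Finset.mem_filter.1 hs).2
    clear hs
    induction hpath with
    | refl => exact Relation.ReflTransGen.refl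
    | @tail b c hab hbc ih =>
      exact ih.tail ⟨hbc.1, Finset.mem_filter.2 ⟨hbc.2, hab.tail hbc⟩⟩
  · intro s hs
    refine (hcon s (Finset.mem_of_mem_filter _ hs)).trans (Finset.card_le_card ?_)
    intro w hw
    rw [Finset.mem_filter] at hw
    refine Finset.mem_filter.2 ⟨Finset.mem_filter.2 ⟨hw.1, ?_⟩, hw.2⟩
    exact (Finset.mem_filter.1 hs).2.tail ⟨hw.2, hw.1⟩
  · exact acy_mono ((Finset.filter_subset _ _).trans hT) hS

/-- **Bounded degree.** An orientation of a graph of maximum degree `D` in which the graph induced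
on every acyclic set is `d`-colourable -/
theorem degPart {V : Type*} [Finite V] (G : SimpleGraph V) {D d : ℕ}
    (hD : ∀ v, {u | G.Adj v u}.encard ≤ D) (h : 9 * (D + 1) ^ 2 * (d + 1) ^ 2 ≤ 2 ^ d) :
    ∃ O : V → V → Prop, (∀ u v, O u v → G.Adj u v) ∧
      (∀ u v, G.Adj u v → (O u v ∧ ¬ O v u) ∨ (O v u ∧ ¬ O u v)) ∧
      ∀ S : Set V, (∀ x, ¬ Relation.TransGen (fun u v => O u v ∧ u ∈ S ∧ v ∈ S) x x) →
        ∃ f : V → Fin d, ∀ u ∈ S, ∀ v ∈ S, G.Adj u v → f u ≠ f v := by
  classical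
  let _ := Fintype.ofFinite V
  let _ : LinearOrder V := IsWellOrder.linearOrder WellOrderingRel
  have hD' : ∀ v, (univ.filter (G.Adj v)).card ≤ D := by
    intro v
    have h1 := hD v
    have h2 : {u | G.Adj v u} = ((univ.filter (G.Adj v) : Finset V) : Set V) := by
      ext u
      simp
    rw [h2, Set.encard_coe_eq_coe_finsetCard] at h1
    exact_mod_cast h1
  have hd : 0 < d := by
    rcases Nat.eq_zero_or_pos d with h0 | h0
    · subst h0
      have h1 : 1 ≤ (D + 1) ^ 2 := Nat.one_le_pow _ _ (Nat.succ_pos _)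
      norm_num at h
      omega
    · exact h0
  obtain ⟨ω, hω⟩ := exists_good G hD' h
  refine ⟨dir G ω, fun u v h1 => h1.1, fun u v h1 => dir_or ω h1, ?_⟩
  intro S hS
  have hS' : Acy G ω (univ.filter (fun v => v ∈ S)) := by
    intro x hx
    refine hS x (Relation.TransGen.mono (r := fun u v => dir G ω u v ∧
      u ∈ univ.filter (fun v => v ∈ S) ∧ v ∈ univ.filter (fun v => v ∈ S)) ?_ x x hx)
    rintro a b ⟨hab, ha, hb⟩
    exact ⟨hab, (Finset.mem_filter.1 ha).2, (Finset.mem_filter.1 hb).2⟩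
  obtain ⟨f, hf⟩ := colour_of_degen G hd _ _ rfl (degen_of_good hω hS')
  refine ⟨f, fun u hu v hv huv => hf u ?_ v ?_ huv⟩
  · exact Finset.mem_filter.2 ⟨Finset.mem_univ _, hu⟩
  · exact Finset.mem_filter.2 ⟨Finset.mem_univ _, hv⟩

end Pool.Agent.H45.EN
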