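import Pool.Agent.H45.EN.Degen
import Pool.Agent.H45.EN.Cover

/-!
# Unions of a locally bounded cover by complete multipartite graphs and a graph of bounded degree
-/

namespace Pool.Agent.H45.EN

open Finset

/-- `δ(G) > k` -/
def DiGt {V : Type*} (G : SimpleGraph V) (k : ℕ) : Prop :=
  ∃ O : V → V → Prop, (∀ u v, O u v → G.Adj u v) ∧
    (∀ u v, G.Adj u v → (O u v ∧ ¬ O v u) ∨ (O v u ∧ ¬ O u v)) ∧
    ∀ c : V → Fin k, ∃ x, Relation.TransGen (fun u v => O u v ∧ c u = c v) x x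

/-- the uncovered edges -/
def rest {V W P : Type*} (G : SimpleGraph V) (part : W → V → Option P) : SimpleGraph V where
  Adj u v := G.Adj u v ∧ ¬ Cov part u v
  symm := ⟨fun _ _ h => ⟨h.1.symm, fun h' => h.2 h'.symm⟩⟩
  loopless := ⟨fun _ h => G.irrefl h.1⟩

/-- **Main theorem** -/
theorem main {V W P : Type*} [Finite V] (G : SimpleGraph V) (part : W → V → Option P)
    {q D d ℓ k : ℕ} (hℓ : 0 < ℓ)
    (hc : ∀ w u v i j, part w u = some i → part w v = some j → i ≠ j → G.Adj u v)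
    (hq : ∀ v, {w | part w v ≠ none}.encard ≤ q)
    (hD : ∀ v, {u | G.Adj v u ∧ ¬ Cov part v u}.encard ≤ D)
    (hd : 9 * (D + 1) ^ 2 * (d + 1) ^ 2 ≤ 2 ^ d) (hcol : G.Colorable (2 ^ ℓ))
    (hχ : ¬ G.Colorable (k * ((1 + 400000 * q ^ 2 * ℓ ^ 3) * d))) : DiGt G k := by
  classical
  obtain ⟨O1, hO1, hO1', hO1c⟩ := coverPart G part hℓ hc hq hcol
  obtain ⟨O2, hO2, hO2', hO2c⟩ := degPart (rest G part) hD hd
  by_contra hnot
  have horient : ∃ c : V → Fin k, ∀ x, ¬ Relation.TransGen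
      (fun u v => ((Cov part u v ∧ O1 u v) ∨ (¬ Cov part u v ∧ O2 u v)) ∧ c u = c v) x x := by
    by_contra hcon
    push Not at hcon
    refine hnot ⟨fun u v => (Cov part u v ∧ O1 u v) ∨ (¬ Cov part u v ∧ O2 u v), ?_, ?_, hcon⟩
    · rintro u v (h | h)
      · exact hO1 u v h.2
      · exact (hO2 u v h.2).1
    · intro u v huv
      by_cases h : Cov part u v
      · rcases hO1' u v huv with h1 | h1
        · refine Or.inl ⟨Or.inl ⟨h, h1.1⟩, ?_⟩
          rintro (h2 | h2)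
          · exact h1.2 h2.2
          · exact h2.1 h.symm
        · refine Or.inr ⟨Or.inl ⟨h.symm, h1.1⟩, ?_⟩
          rintro (h2 | h2)
          · exact h1.2 h2.2
          · exact h2.1 h
      · have h' : ¬ Cov part v u := fun h3 => h h3.symm
        rcases hO2' u v ⟨huv, h⟩ with h1 | h1
        · refine Or.inl ⟨Or.inr ⟨h, h1.1⟩, ?_⟩
          rintro (h2 | h2)
          · exact h' h2.1
          · exact h1.2 h2.2
        · refine Or.inr ⟨Or.inr ⟨h', h1.1⟩, ?_⟩
          rintro (h2 | h2)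
          · exact h h2.1
          · exact h1.2 h2.2
  obtain ⟨c, hc'⟩ := horient
  have hf : ∀ i : Fin k, ∃ f : V → Fin (1 + 400000 * q ^ 2 * ℓ ^ 3), ∀ u ∈ {v | c v = i},
      ∀ v ∈ {v | c v = i}, Cov part u v → f u ≠ f v := by
    intro i
    refine hO1c {v | c v = i} fun x hx => hc' x ?_
    refine Relation.TransGen.mono (r := fun u v => (O1 u v ∧ Cov part u v) ∧
      u ∈ {v | c v = i} ∧ v ∈ {v | c v = i}) ?_ x x hx
    rintro a b ⟨⟨h1, h2⟩, h3, h4⟩
    exact ⟨Or.inl ⟨h2, h1⟩, (show c a = i from h3).trans (show c b = i from h4).symm⟩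
  have hg : ∀ i : Fin k, ∃ f : V → Fin d, ∀ u ∈ {v | c v = i},
      ∀ v ∈ {v | c v = i}, (rest G part).Adj u v → f u ≠ f v := by
    intro i
    refine hO2c {v | c v = i} fun x hx => hc' x ?_
    refine Relation.TransGen.mono (r := fun u v => O2 u v ∧
      u ∈ {v | c v = i} ∧ v ∈ {v | c v = i}) ?_ x x hx
    rintro a b ⟨h1, h3, h4⟩
    exact ⟨Or.inr ⟨(hO2 a b h1).2, h1⟩, (show c a = i from h3).trans (show c b = i from h4).symm⟩
  choose f hf using hf
  choose g hg using hg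
  apply hχ
  let C : G.Coloring (Fin k × (Fin (1 + 400000 * q ^ 2 * ℓ ^ 3) × Fin d)) :=
    SimpleGraph.Coloring.mk (fun v => (c v, (f (c v) v, g (c v) v))) (by
      intro u v huv heq
      rw [Prod.mk.injEq, Prod.mk.injEq] at heq
      obtain ⟨h1, h2, h3⟩ := heq
      by_cases h : Cov part u v
      · refine hf (c u) u rfl v h1.symm h ?_
        rw [h2, h1]
      · refine hg (c u) u rfl v h1.symm ⟨huv, h⟩ ?_
        rw [h3, h1])
  have h1 := C.colorable
  rw [Fintype.card_prod, Fintype.card_prod, Fintype.card_fin, Fintype.card_fin,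
    Fintype.card_fin] at h1
  exact h1

end Pool.Agent.H45.EN
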