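import Pool.Agent.H45.EN.Base
import Pool.Agent.H45.EN.Acyc

/-!
# An orientation of a graph of bounded degree without acyclic sets of large minimum degree
-/

namespace Pool.Agent.H45.EN

open Finset

/-- `S` is a bad set for `ω` -/
def Bad {V : Type*} [LinearOrder V] (G : SimpleGraph V) [DecidableRel G.Adj] (d : ℕ)
    (ω : V × V → Bool) (S : Finset V) : Prop :=
  (∃ v, Rch G {v} S) ∧ (∀ v ∈ S, d ≤ (S.filter (G.Adj v)).card) ∧ Acy G ω S

open Classical in
/-- the good bit vectors for `U` -/
noncomputable def gd {V : Type*} [Fintype V] [LinearOrder V] (G : SimpleGraph V)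
    [DecidableRel G.Adj] (d : ℕ) (U : Finset V) : Finset (V × V → Bool) :=
  univ.filter (fun ω => ∀ S ⊆ U, ¬ Bad G d ω S)

theorem acy_congr {V : Type*} [LinearOrder V] {G : SimpleGraph V}
    {ω ω' : V × V → Bool} {S : Finset V} (h : ∀ u ∈ S, ∀ v ∈ S, ω (u, v) = ω' (u, v))
    (h1 : Acy G ω S) : Acy G ω' S := by
  intro x hx
  refine h1 x (Relation.TransGen.mono (r := fun u v => dir G ω' u v ∧ u ∈ S ∧ v ∈ S) ?_ x x hx)
  rintro a b ⟨⟨hadj, hab⟩, ha, hb⟩
  refine ⟨⟨hadj, ?_⟩, ha, hb⟩
  rw [h a ha b hb, h b hb a ha]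
  exact hab

theorem bad_congr {V : Type*} [LinearOrder V] {G : SimpleGraph V} [DecidableRel G.Adj] {d : ℕ}
    {ω ω' : V × V → Bool} {S : Finset V} (h : ∀ u ∈ S, ∀ v ∈ S, ω (u, v) = ω' (u, v))
    (h1 : Bad G d ω S) : Bad G d ω' S :=
  ⟨h1.1, h1.2.1, acy_congr h h1.2.2⟩

theorem gd_mono {V : Type*} [Fintype V] [LinearOrder V] (G : SimpleGraph V)
    [DecidableRel G.Adj] (d : ℕ) {U U' : Finset V} (h : U ⊆ U') : gd G d U' ⊆ gd G d U := by
  classical
  intro ω hω
  rw [gd, Finset.mem_filter] at hω ⊢
  exact ⟨Finset.mem_univ _, fun S hS => hω.2 S (hS.trans h)⟩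

theorem rch_self {V : Type*} [DecidableEq V] {G : SimpleGraph V} {S : Finset V} {v w : V}
    (h : Rch G {v} S) (hw : w ∈ S) : Rch G {w} S := by
  classical
  have key : ∀ s, Relation.ReflTransGen (fun x y => G.Adj x y ∧ y ∈ S) v s →
      s ∈ S ∧ Relation.ReflTransGen (fun x y => G.Adj x y ∧ y ∈ S) s v := by
    intro s hs
    induction hs with
    | refl => exact ⟨h.1 (Finset.mem_singleton_self v), Relation.ReflTransGen.refl⟩
    | @tail b c _ hbc ih =>
      exact ⟨hbc.2, Relation.ReflTransGen.head ⟨hbc.1.symm, ih.1⟩ ih.2⟩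
  refine ⟨Finset.singleton_subset_iff.2 hw, fun s hs => ⟨w, Finset.mem_singleton_self w, ?_⟩⟩
  obtain ⟨a, ha, h1⟩ := h.2 w hw
  obtain ⟨b, hb, h2⟩ := h.2 s hs
  rw [Finset.mem_singleton] at ha hb
  subst ha hb
  exact (key w h1).2.trans h2

open Classical in
/-- bad extensions -/
theorem gd_sub {V : Type*} [Fintype V] [LinearOrder V] (G : SimpleGraph V)
    [DecidableRel G.Adj] (d : ℕ) (U : Finset V) (v : V) :
    (gd G d U).card ≤ (gd G d (insert v U)).card +
      ∑ S ∈ ({v} ∪ U).powerset.filter (Rch G {v}), if (∀ v ∈ S, d ≤ (S.filter (G.Adj v)).card)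
        then (gd G d (U \ S) ∩ univ.filter (fun ω : V × V → Bool => Acy G ω S)).card else 0 := by
  rw [← Finset.sum_filter]
  have h1 : gd G d U ⊆ gd G d (insert v U) ∪
      (((({v} ∪ U).powerset.filter (Rch G {v})).filter
        (fun S => ∀ v ∈ S, d ≤ (S.filter (G.Adj v)).card)).biUnion
        (fun S => gd G d (U \ S) ∩ univ.filter (fun ω : V × V → Bool => Acy G ω S))) := by
    intro ω hω
    rw [Finset.mem_union]
    by_cases h2 : ω ∈ gd G d (insert v U)
    · exact Or.inl h2
    right
    rw [gd, Finset.mem_filter] at h2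
    push Not at h2
    obtain ⟨S, hS1, hS2⟩ := h2 (Finset.mem_univ _)
    have hvS : v ∈ S := by
      by_contra hv
      have hSU : S ⊆ U := by
        intro x hx
        rcases Finset.mem_insert.1 (hS1 hx) with h3 | h3
        · exact absurd (h3 ▸ hx) hv
        · exact h3
      rw [gd, Finset.mem_filter] at hω
      exact hω.2 S hSU hS2
    rw [Finset.mem_biUnion]
    refine ⟨S, ?_, ?_⟩
    · rw [Finset.mem_filter, Finset.mem_filter, Finset.mem_powerset]
      obtain ⟨w, hw⟩ := hS2.1
      refine ⟨⟨?_, rch_self hw hvS⟩, hS2.2.1⟩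
      rw [← Finset.insert_eq]
      exact hS1
    · rw [Finset.mem_inter, Finset.mem_filter]
      exact ⟨gd_mono G d Finset.sdiff_subset hω, Finset.mem_univ _, hS2.2.2⟩
  exact (Finset.card_le_card h1).trans ((Finset.card_union_le _ _).trans
    (Nat.add_le_add_left Finset.card_biUnion_le _))

open Classical in
/-- independence in our situation -/
theorem gd_indep {V : Type*} [Fintype V] [LinearOrder V] (G : SimpleGraph V)
    [DecidableRel G.Adj] (d : ℕ) (U S : Finset V) :
    (gd G d (U \ S) ∩ univ.filter (fun ω : V × V → Bool => Acy G ω S)).card *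
      Fintype.card (V × V → Bool) ≤ (gd G d (U \ S)).card *
        (univ.filter (fun ω : V × V → Bool => Acy G ω S)).card := by
  rw [Finset.inter_comm, mul_comm (gd G d (U \ S)).card]
  refine indep {p | p.1 ∈ S ∧ p.2 ∈ S} _ _ ?_ ?_
  · intro ω ω' h h1
    rw [Finset.mem_filter] at h1 ⊢
    exact ⟨Finset.mem_univ _, acy_congr (fun u hu v hv => h (u, v) ⟨hu, hv⟩) h1.2⟩
  · intro ω ω' h h1
    rw [gd, Finset.mem_filter] at h1 ⊢
    refine ⟨Finset.mem_univ _, fun T hT hbad => h1.2 T hT (bad_congr ?_ hbad)⟩
    intro u hu v _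
    refine (h (u, v) ?_).symm
    intro h2
    exact (Finset.mem_sdiff.1 (hT hu)).2 h2.1

theorem e_bound (K : ℕ) (hK : 0 < K) : (1 + 1 / (K : ℝ)) ^ K ≤ 3 := by
  have hK' : (0 : ℝ) < K := by exact_mod_cast hK
  have h1 : (1 + 1 / (K : ℝ)) ≤ Real.exp (1 / K) := by
    rw [add_comm]
    exact Real.add_one_le_exp _
  calc (1 + 1 / (K : ℝ)) ^ K ≤ (Real.exp (1 / K)) ^ K := by
        apply pow_le_pow_left₀ _ h1
        positivity
    _ = Real.exp 1 := by
        rw [← Real.exp_nat_mul]
        congr 1
        field_simp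
    _ ≤ 3 := Real.exp_one_lt_three.le

open Classical in
/-- the counting argument of Rosenfeld -/
theorem gd_grow {V : Type*} [Fintype V] [LinearOrder V] (G : SimpleGraph V)
    [DecidableRel G.Adj] {D d : ℕ} (hD : ∀ v, (univ.filter (G.Adj v)).card ≤ D)
    (h : 9 * (D + 1) ^ 2 * (d + 1) ^ 2 ≤ 2 ^ d) :
    ∀ (n : ℕ) (U : Finset V) (v : V), U.card = n → v ∉ U →
      ((D + 1 : ℕ) : ℝ) / ((D + 1 : ℕ) + 1) * ((gd G d U).card : ℝ)
        ≤ ((gd G d (insert v U)).card : ℝ) := by
  set K := D + 1 with hKdef
  have hK : 0 < K := Nat.succ_pos _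
  have hK' : (0 : ℝ) < K := by exact_mod_cast hK
  set β : ℝ := (K : ℝ) / (K + 1) with hβ
  have hβpos : 0 < β := by positivity
  intro n
  induction n using Nat.strong_induction_on with
  | _ n ih =>
    intro U v hU hv
    -- adding the vertices one by one
    have hadd : ∀ (m : ℕ) (T : Finset V), T ⊆ U → (U \ T).card = m →
        β ^ m * ((gd G d T).card : ℝ) ≤ ((gd G d U).card : ℝ) := by
      intro m
      induction m with
      | zero =>
        intro T hT h0
        have : U = T := by
          rw [Finset.card_eq_zero, Finset.sdiff_eq_empty_iff_subset] at h0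
          exact Finset.Subset.antisymm h0 hT
        rw [this, pow_zero, one_mul]
      | succ m ihm =>
        intro T hT hm
        obtain ⟨w, hw⟩ : (U \ T).Nonempty := by
          rw [← Finset.card_pos]; omega
        rw [Finset.mem_sdiff] at hw
        have h1 : T.card < n := by
          rw [← hU]
          refine Finset.card_lt_card (Finset.ssubset_iff_subset_ne.2 ⟨hT, ?_⟩)
          intro h2
          exact hw.2 (h2 ▸ hw.1)
        have h2 := ih T.card h1 T w rfl hw.2
        have h3 := ihm (insert w T) (Finset.insert_subset hw.1 hT) (by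
          rw [Finset.sdiff_insert, Finset.card_erase_of_mem (Finset.mem_sdiff.2 hw), hm]
          omega)
        calc β ^ (m + 1) * ((gd G d T).card : ℝ) = β ^ m * (β * ((gd G d T).card : ℝ)) := by ring
          _ ≤ β ^ m * ((gd G d (insert w T)).card : ℝ) :=
              mul_le_mul_of_nonneg_left h2 (pow_nonneg hβpos.le _)
          _ ≤ _ := h3
    set y : ℝ := 1 / (3 * K) / β with hy
    have hypos : 0 < y := by positivity
    have hz : y * (1 + 1 / (K : ℝ)) ^ D ≤ 1 / K := by
      have h1 := e_bound K hK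
      have h2 : y * (1 + 1 / (K : ℝ)) ^ D = 1 / (3 * K) * (1 + 1 / (K : ℝ)) ^ K := by
        have h3 : (1 + 1 / (K : ℝ)) ^ K = (1 + 1 / (K : ℝ)) ^ D * (1 + 1 / (K : ℝ)) := by
          rw [hKdef, pow_succ]
        have h4 : 1 / β = 1 + 1 / (K : ℝ) := by
          rw [hβ]
          field_simp
        rw [h3, hy, div_eq_mul_one_div (1 / (3 * (K : ℝ))) β, h4]
        ring
      rw [h2]
      calc 1 / (3 * (K : ℝ)) * (1 + 1 / (K : ℝ)) ^ K ≤ 1 / (3 * K) * 3 :=
            mul_le_mul_of_nonneg_left h1 (by positivity)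
        _ = 1 / K := by field_simp
    have hsum := rch_sum G hD hypos.le (by positivity : (0 : ℝ) ≤ 1 / K) hz
      (({v} : Finset V).card + U.card) {v} U (by
        rw [Finset.disjoint_singleton_left]; exact hv) le_rfl
    rw [Finset.card_singleton, pow_one] at hsum
    have hterm : ∀ S ∈ ({v} ∪ U).powerset.filter (Rch G {v}),
        (((if (∀ v ∈ S, d ≤ (S.filter (G.Adj v)).card)
        then (gd G d (U \ S) ∩ univ.filter (fun ω : V × V → Bool => Acy G ω S)).card else 0 : ℕ)
          : ℝ)) ≤ (β * ((gd G d U).card : ℝ)) * y ^ S.card := by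
      intro S hS
      by_cases hdeg : ∀ v ∈ S, d ≤ (S.filter (G.Adj v)).card
      · rw [if_pos hdeg]
        rw [Finset.mem_filter, Finset.mem_powerset] at hS
        have hvS : v ∈ S := hS.2.1 (Finset.mem_singleton_self v)
        have hcardS : (U \ (U \ S)).card + 1 = S.card := by
          have h1 : U \ (U \ S) = S.erase v := by
            ext x
            rw [Finset.mem_sdiff, Finset.mem_sdiff, Finset.mem_erase]
            constructor
            · rintro ⟨h2, h3⟩
              exact ⟨fun h4 => hv (h4 ▸ h2), by tauto⟩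
            · rintro ⟨h2, h3⟩
              have h4 := hS.1 h3
              rw [Finset.mem_union, Finset.mem_singleton] at h4
              exact ⟨by tauto, by tauto⟩
          rw [h1, Finset.card_erase_add_one hvS]
        have h1 := hadd _ (U \ S) Finset.sdiff_subset rfl
        have h2 : ((gd G d (U \ S) ∩ univ.filter
              (fun ω : V × V → Bool => Acy G ω S)).card : ℝ) *
            (Fintype.card (V × V → Bool) : ℝ) ≤ ((gd G d (U \ S)).card : ℝ) *
            ((univ.filter (fun ω : V × V → Bool => Acy G ω S)).card : ℝ) := by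
          exact_mod_cast gd_indep G d U S
        have h3 : ((univ.filter (fun ω : V × V → Bool => Acy G ω S)).card : ℝ) *
            (3 * K) ^ S.card ≤ (Fintype.card (V × V → Bool) : ℝ) := by
          exact_mod_cast prob_acy G hK h S hdeg
        set Ω : ℝ := (Fintype.card (V × V → Bool) : ℝ) with hΩ
        have hΩpos : 0 < Ω := by
          rw [hΩ]
          exact_mod_cast Fintype.card_pos
        set x : ℝ := ((gd G d (U \ S) ∩ univ.filter
              (fun ω : V × V → Bool => Acy G ω S)).card : ℝ) with hx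
        set a : ℝ := ((univ.filter (fun ω : V × V → Bool => Acy G ω S)).card : ℝ) with ha
        set g : ℝ := ((gd G d (U \ S)).card : ℝ) with hg
        have hg0 : 0 ≤ g := Nat.cast_nonneg _
        have h3K : (0 : ℝ) < (3 * K) ^ S.card := by positivity
        have h4 : x * (3 * K) ^ S.card ≤ g := by
          have h5 : x * (3 * K) ^ S.card * Ω ≤ g * Ω := by
            calc x * (3 * K) ^ S.card * Ω = (x * Ω) * (3 * K) ^ S.card := by ring
              _ ≤ (g * a) * (3 * K) ^ S.card := mul_le_mul_of_nonneg_right h2 h3K.le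
              _ = g * (a * (3 * K) ^ S.card) := by ring
              _ ≤ g * Ω := mul_le_mul_of_nonneg_left h3 hg0
          exact le_of_mul_le_mul_right h5 hΩpos
        have h5 : x ≤ g * (1 / (3 * K)) ^ S.card := by
          rw [one_div, inv_pow, ← div_eq_mul_inv, le_div_iff₀ h3K]
          exact h4
        have h6 : g * β ^ (S.card - 1) ≤ ((gd G d U).card : ℝ) := by
          have h7 : S.card - 1 = (U \ (U \ S)).card := by omega
          rw [h7, mul_comm]
          exact h1
        calc x ≤ g * (1 / (3 * K)) ^ S.card := h5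
          _ = β * (g * β ^ (S.card - 1)) * y ^ S.card := by
              have h8 : β ^ S.card = β * β ^ (S.card - 1) := by
                rw [← pow_succ']
                congr 1
                omega
              have h9 : (1 / (3 * (K : ℝ))) ^ S.card = β ^ S.card * y ^ S.card := by
                rw [← mul_pow, hy]
                congr 1
                field_simp
              rw [h9, h8]
              ring
          _ ≤ β * ((gd G d U).card : ℝ) * y ^ S.card := by
              refine mul_le_mul_of_nonneg_right ?_ (pow_nonneg hypos.le _)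
              exact mul_le_mul_of_nonneg_left h6 hβpos.le
      · rw [if_neg hdeg]
        rw [Nat.cast_zero]
        positivity
    have hmain : ((gd G d U).card : ℝ) ≤ ((gd G d (insert v U)).card : ℝ) +
        (β * ((gd G d U).card : ℝ)) * (1 / K) := by
      have h1 : ((gd G d U).card : ℝ) ≤ ((gd G d (insert v U)).card : ℝ) +
          ∑ S ∈ ({v} ∪ U).powerset.filter (Rch G {v}),
            (((if (∀ v ∈ S, d ≤ (S.filter (G.Adj v)).card)
        then (gd G d (U \ S) ∩ univ.filter (fun ω : V × V → Bool => Acy G ω S)).card else 0 : ℕ)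
          : ℝ)) := by
        exact_mod_cast gd_sub G d U v
      refine h1.trans (add_le_add le_rfl ?_)
      refine (Finset.sum_le_sum hterm).trans ?_
      rw [← Finset.mul_sum]
      exact mul_le_mul_of_nonneg_left hsum (by positivity)
    have hfin : β * ((gd G d U).card : ℝ) * (1 / K) = (1 / (K + 1)) * ((gd G d U).card : ℝ) := by
      rw [hβ]
      field_simp
    rw [hfin] at hmain
    have hsplit : ((gd G d U).card : ℝ) = β * ((gd G d U).card : ℝ) +
        (1 / (K + 1)) * ((gd G d U).card : ℝ) := by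
      rw [hβ]
      field_simp
    linarith

/-- there is a good orientation -/
theorem exists_good {V : Type*} [Fintype V] [LinearOrder V] (G : SimpleGraph V)
    [DecidableRel G.Adj] {D d : ℕ} (hD : ∀ v, (univ.filter (G.Adj v)).card ≤ D)
    (h : 9 * (D + 1) ^ 2 * (d + 1) ^ 2 ≤ 2 ^ d) :
    ∃ ω : V × V → Bool, ∀ S, ¬ Bad G d ω S := by
  classical
  have hpos : ∀ U : Finset V, 0 < (gd G d U).card := by
    intro U
    induction U using Finset.induction_on with
    | empty =>
      rw [Finset.card_pos]
      refine ⟨fun _ => true, ?_⟩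
      rw [gd, Finset.mem_filter]
      refine ⟨Finset.mem_univ _, fun S hS hbad => ?_⟩
      rw [Finset.subset_empty] at hS
      subst hS
      obtain ⟨v, hv⟩ := hbad.1
      exact absurd (hv.1 (Finset.mem_singleton_self v)) (Finset.notMem_empty _)
    | insert v U hv ih =>
      have h1 := gd_grow G hD h U.card U v rfl hv
      have h2 : (0 : ℝ) < ((gd G d U).card : ℝ) := by exact_mod_cast ih
      have h3 : (0 : ℝ) < ((D + 1 : ℕ) : ℝ) / ((D + 1 : ℕ) + 1) * ((gd G d U).card : ℝ) := by
        positivity
      exact_mod_cast lt_of_lt_of_le h3 h1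
  obtain ⟨ω, hω⟩ := Finset.card_pos.1 (hpos univ)
  rw [gd, Finset.mem_filter] at hω
  exact ⟨ω, fun S => hω.2 S (Finset.subset_univ S)⟩

end Pool.Agent.H45.EN
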